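import Pool.Agent.W2helper37.SG.Stm

/-!
# Project SG, piece UNI: matrix units for a homogeneous basis
-/

set_option autoImplicit false
set_option linter.unusedSectionVars false
set_option linter.unusedSimpArgs false
set_option backward.isDefEq.respectTransparency false
set_option backward.defeqAttrib.useBackward true

open CategoryTheory Limits MonoidalCategory
open Pool.Agent.Y112.SR Pool.Agent.Y112.KD Pool.Agent.Y112.SC
open Pool.Agent.W2helper37.SG

namespace Pool.Agent.W2helper51.SG

universe v u w

/-- A homogeneous basis for an involution. -/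
lemma exists_basis {K : Type w} [Field K] (h2 : (2 : K) ≠ 0) {V : Type w} [AddCommGroup V]
    [Module K V] [Module.Finite K V] (s : Module.End K V) (hs : ∀ x, s (s x) = x) :
    ∃ (p q : ℕ) (b : Module.Basis (Fin p ⊕ Fin q) K V),
      (∀ i, s (b (Sum.inl i)) = b (Sum.inl i)) ∧ ∀ i, s (b (Sum.inr i)) = -b (Sum.inr i) := by
  classical
  set E : Submodule K V := LinearMap.ker (s - 1) with hE
  set F : Submodule K V := LinearMap.ker (s + 1) with hF
  have mE : ∀ x, x ∈ E ↔ s x = x := fun x => by
    rw [hE, LinearMap.mem_ker, LinearMap.sub_apply, Module.End.one_apply, sub_eq_zero]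
  have mF : ∀ x, x ∈ F ↔ s x = -x := fun x => by
    rw [hF, LinearMap.mem_ker, LinearMap.add_apply, Module.End.one_apply, add_eq_zero_iff_eq_neg]
  have hc : IsCompl E F := by
    constructor
    · rw [Submodule.disjoint_def]
      intro x hx hx'
      rw [mE] at hx
      rw [mF, hx] at hx'
      have h1 : (2 : K) • x = 0 := by
        rw [two_smul]
        nth_rewrite 1 [hx']
        simp
      exact (smul_eq_zero.mp h1).resolve_left h2
    · rw [codisjoint_iff, eq_top_iff]
      intro x _
      have e : x = (2 : K)⁻¹ • (x + s x) + (2 : K)⁻¹ • (x - s x) := by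
        rw [← smul_add]
        have : x + s x + (x - s x) = (2 : K) • x := by rw [two_smul]; abel
        rw [this, smul_smul, inv_mul_cancel₀ h2, one_smul]
      rw [e]
      refine Submodule.add_mem_sup ?_ ?_
      · rw [mE, map_smul, map_add, hs, add_comm]
      · rw [mF, map_smul, map_sub, hs, ← smul_neg, neg_sub]
  refine ⟨_, _, ((Module.finBasis K E).prod (Module.finBasis K F)).map
    (Submodule.prodEquivOfIsCompl E F hc), fun i => ?_, fun i => ?_⟩
  · rw [Module.Basis.map_apply, Submodule.coe_prodEquivOfIsCompl']
    rw [Module.Basis.prod_apply]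
    simp only [Sum.elim_inl, Function.comp_apply, LinearMap.inl_apply, Submodule.coe_zero, add_zero]
    exact (mE _).1 (Module.finBasis K E i).2
  · rw [Module.Basis.map_apply, Submodule.coe_prodEquivOfIsCompl']
    rw [Module.Basis.prod_apply]
    simp only [Sum.elim_inr, Function.comp_apply, LinearMap.inr_apply, Submodule.coe_zero, zero_add]
    exact (mF _).1 (Module.finBasis K F i).2

theorem p_uni : P_UNI.{u, v, w} := by
  intro C _ _ _ _ _ _ K _ R M
  classical
  have hK := R_charZero R
  have h2 : (2 : K) ≠ 0 := two_ne_zero
  have hfin := R.finite M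
  obtain ⟨p, q, b, hb1, hb2⟩ := exists_basis h2 (R.par M).hom (fun x => by
    have h := LinearMap.congr_fun (congrArg ModuleCat.Hom.hom (R.par_sq M)) x
    simpa using h)
  let o : Fin p ⊕ Fin q → Bool := Sum.elim (fun _ => false) (fun _ => true)
  have hpar : ∀ i, (R.par M).hom (b i) = sg K (o i) • b i := by
    rintro (i | i)
    · rw [hb1]; simp [o, sg]
    · rw [hb2]; simp [o, sg]
  let e : Fin p ⊕ Fin q → Fin p ⊕ Fin q → (R.H.obj M ⟶ R.H.obj M) :=
    fun i k => ModuleCat.ofHom ((b.coord i).smulRight (b k))
  have he : ∀ i k x, (e i k).hom x = b.coord i x • b k := fun i k x => rfl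
  refine ⟨Fin p ⊕ Fin q, inferInstance, inferInstance, o, e, ⟨?_, ?_, ?_, ?_⟩⟩
  · intro i k j l
    apply ModuleCat.hom_ext
    refine LinearMap.ext fun x => ?_
    rw [ModuleCat.hom_comp, LinearMap.comp_apply, he, he, map_smul]
    split_ifs with h
    · subst h
      rw [he]
      simp
    · have : b.coord j (b k) = 0 := by
        rw [Module.Basis.coord_apply, Module.Basis.repr_self, Finsupp.single_apply, if_neg h]
      rw [this]
      simp
  · apply ModuleCat.hom_ext
    refine LinearMap.ext fun x => ?_
    rw [ModuleCat.hom_sum, LinearMap.sum_apply]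
    simp only [he]
    exact b.sum_repr x
  · apply ModuleCat.hom_ext
    refine b.ext fun j => ?_
    rw [hpar, ModuleCat.hom_sum, LinearMap.sum_apply, Finset.sum_eq_single j]
    · rw [ModuleCat.hom_smul, LinearMap.smul_apply, he]
      simp
    · intro i _ hij
      rw [ModuleCat.hom_smul, LinearMap.smul_apply, he]
      have : b.coord i (b j) = 0 := by
        rw [Module.Basis.coord_apply, Module.Basis.repr_self, Finsupp.single_apply, if_neg hij.symm]
      rw [this]
      simp
    · intro h; exact absurd (Finset.mem_univ j) h
  · intro i k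
    change LinearMap.trace K (R.H.obj M) ((b.coord i).smulRight (b k)) = _
    rw [LinearMap.trace_smulRight, Module.Basis.coord_apply, Module.Basis.repr_self,
      Finsupp.single_apply]
    simp only [eq_comm]

end Pool.Agent.W2helper51.SG
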