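import Pool.Agent.W2helper37.SG.Stm

/-!
# Project SG, piece WTL: a stable summand with zero odd part is purely even or purely odd
-/

set_option autoImplicit false
set_option linter.unusedSectionVars false
set_option linter.unusedSimpArgs false

open Pool.Agent.W2helper37.SG

namespace Pool.Agent.W2helper51.SG

universe w

theorem p_wtl : P_WTL.{w} := by
  intro K _ _ ι _ _ o T P _ _ _ _ A s i r κ _ u n m hG hpq hri hcm hw hs hm hodd
  classical
  have ri : ∀ x, r (i x) = x := fun x => by
    have := LinearMap.congr_fun hri x
    simpa using this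
  -- commutation, elementwise
  have cm : ∀ k l t, i (r (A k l t)) = A k l (i (r t)) := fun k l t => by
    have := LinearMap.congr_fun (hcm k l).eq t
    simpa using this
  -- even and odd diagonal entries agree on the summand
  have hdiag : ∀ a b, o a = false → o b = true → ∀ x, r (A a a (i x)) = r (A b b (i x)) := by
    intro a b ha hb x
    have h := hG a b b a
    have hab : o a ≠ o b := by rw [ha, hb]; simp
    have h1 : r (A a b (A b a (i x))) = 0 := by
      have e1 : A b a (i x) = i (r (A b a (i x))) := by
        rw [cm, ri]
      have e2 : r (A b a (i x)) = 0 := LinearMap.congr_fun (hodd b a (Ne.symm hab)) x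
      rw [e1, e2]; simp
    have h2 : r (A b a (A a b (i x))) = 0 := by
      have e1 : A a b (i x) = i (r (A a b (i x))) := by
        rw [cm, ri]
      have e2 : r (A a b (i x)) = 0 := LinearMap.congr_fun (hodd a b hab) x
      rw [e1, e2]; simp
    have h3 := congrArg (fun f : Module.End K T => r (f (i x))) h
    simp only [cc, ha, hb, LinearMap.sub_apply, LinearMap.smul_apply, Module.End.mul_apply,
      map_sub, map_smul, h1, h2, if_true] at h3
    simp at h3
    have h4 := sub_eq_zero.mp h3.symm
    exact h4.symm
  set E : Module.End K T := ∑ j with o j = false, A j j with hE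
  set S : Module.End K T := ∑ j with o j = true, A j j with hS
  set p : ℕ := num o false with hp
  set q : ℕ := num o true with hq
  have hES : ∀ x, (p : K) • r (S (i x)) = (q : K) • r (E (i x)) := by
    intro x
    have e1 : r (S (i x)) = ∑ j with o j = true, r (A j j (i x)) := by
      rw [hS, LinearMap.sum_apply, map_sum]
    have e2 : r (E (i x)) = ∑ j with o j = false, r (A j j (i x)) := by
      rw [hE, LinearMap.sum_apply, map_sum]
    have e3 : (p : K) • r (S (i x)) = ∑ a with o a = false, ∑ b with o b = true, r (A b b (i x)) := by
      rw [Finset.sum_const, e1, hp, num]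
      simp [Nat.cast_smul_eq_nsmul]
    have e4 : (q : K) • r (E (i x)) = ∑ b with o b = true, ∑ a with o a = false, r (A a a (i x)) := by
      rw [Finset.sum_const, e2, hq, num]
      simp [Nat.cast_smul_eq_nsmul]
    rw [e3, e4, Finset.sum_comm]
    refine Finset.sum_congr rfl fun b hb => Finset.sum_congr rfl fun a ha => ?_
    exact (hdiag a b (by simpa using ha) (by simpa using hb) x).symm
  have hpqK : (p : K) - (q : K) ≠ 0 := by
    intro h
    exact hpq (by exact_mod_cast sub_eq_zero.mp h)
  have hEm : ∀ x, r (E (i x)) = r (S (i x)) + (m : K) • x := by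
    intro x
    have h := LinearMap.congr_fun hm (i x)
    simp only [LinearMap.sub_apply, LinearMap.smul_apply, Module.End.one_apply] at h
    have h2 := congrArg r h
    rw [map_sub, map_smul, ri] at h2
    rw [← h2]; abel
  set c : K := (q : K) * m / (p - q) with hc
  have hScal : ∀ x, r (S (i x)) = c • x := by
    intro x
    have h := hES x
    rw [hEm x, smul_add] at h
    have h2 : ((p : K) - q) • r (S (i x)) = ((q : K) * m) • x := by
      rw [sub_smul, h, mul_smul]; abel
    have h3 : r (S (i x)) = ((p : K) - q)⁻¹ • (((q : K) * m) • x) := by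
      rw [← h2, smul_smul, inv_mul_cancel₀ hpqK, one_smul]
    rw [h3, smul_smul, hc, div_eq_inv_mul]
  have hSi : ∀ x, S (i x) = c • i x := by
    intro x
    have e : S (i x) = i (r (S (i x))) := by
      rw [hS, LinearMap.sum_apply, map_sum, map_sum]
      refine Finset.sum_congr rfl fun j _ => ?_
      rw [cm, ri]
    rw [e, hScal, map_smul]
  have hcoef : ∀ x y, u.repr (i x) y ≠ 0 → (n y : K) = -c := by
    intro x y hy
    have h := hSi x
    have e : S (i x) = ∑ z, u.repr (i x) z • (-(n z : K) • u z) := by
      conv_lhs => rw [← u.sum_repr (i x)]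
      rw [map_sum]
      refine Finset.sum_congr rfl fun z _ => ?_
      rw [map_smul, hw z]
    have h2 : u.repr (S (i x)) y = u.repr (c • i x) y := by rw [h]
    rw [e] at h2
    simp only [map_sum, map_smul, Finsupp.coe_finset_sum, Finset.sum_apply, Finsupp.smul_apply,
      Module.Basis.repr_self, smul_eq_mul, Finsupp.single_apply] at h2
    rw [Finset.sum_eq_single y] at h2
    · simp only [if_true, mul_one] at h2
      have h3 : u.repr (i x) y * (-(n y : K) - c) = 0 := by
        have : u.repr (i x) y * (-(n y : K)) = c * u.repr (i x) y := by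
          simpa using h2
        rw [mul_sub, this]; ring
      rcases mul_eq_zero.mp h3 with h4 | h4
      · exact absurd h4 hy
      · have : -(n y : K) = c := sub_eq_zero.mp h4
        rw [← this]; ring
    · intro z _ hz
      simp [hz]
    · intro h; exact absurd (Finset.mem_univ y) h
  by_cases hex : ∃ x y, u.repr (i x) y ≠ 0
  · obtain ⟨x0, y0, h0⟩ := hex
    have hy0 := hcoef x0 y0 h0
    have hsi : ∀ x, s (i x) = ((-1 : K) ^ (n y0)) • i x := by
      intro x
      conv_lhs => rw [← u.sum_repr (i x)]
      conv_rhs => rw [← u.sum_repr (i x)]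
      rw [map_sum, Finset.smul_sum]
      refine Finset.sum_congr rfl fun z _ => ?_
      rw [map_smul, hs z, smul_comm]
      by_cases hz : u.repr (i x) z = 0
      · rw [hz]; simp
      · have h1 := hcoef x z hz
        have h2 : (n z : K) = (n y0 : K) := by rw [h1, hy0]
        have h3 : n z = n y0 := by exact_mod_cast h2
        rw [h3]
    have hrs : ∀ x, r (s (i x)) = ((-1 : K) ^ (n y0)) • x := fun x => by
      rw [hsi, map_smul, ri]
    rcases Int.even_or_odd (n y0) with he | ho
    · left; intro x; rw [hrs, he.neg_one_zpow, one_smul]
    · right; intro x; rw [hrs, ho.neg_one_zpow, neg_one_smul]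
  · left
    intro x
    push Not at hex
    have hix : i x = 0 := by
      rw [← u.sum_repr (i x)]
      refine Finset.sum_eq_zero fun z _ => ?_
      rw [hex x z, zero_smul]
    have hx : x = 0 := by rw [← ri x, hix, map_zero]
    rw [hix, hx]; simp

end Pool.Agent.W2helper51.SG
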